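import Pool.Agent.Results.MP_cd509c_nt.ZeroDensity
import Pool.Agent.X283.DA.Pack

/-!
# Natural numbers near zeros of the Ramanujan Xi function off the real line
-/

set_option autoImplicit false

namespace Pool.Agent.X284.RX

open Complex Finset
open Pool.Agent.Results.MP_cd509c_nt.ZeroDensity (Xi Off num)

theorem xi_eq (z : ℂ) : Xi z = Pool.Agent.Y771.NF.Lam (N := 1) (k := 12) Pool.Agent.W97.TW.deltaForm (6 + Complex.I * z) := by
  rw [Pool.Agent.Y771.NF.Lam_delta]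
  rfl

theorem xi_diff : Differentiable ℂ Xi := by
  have h1 : Differentiable ℂ (Pool.Agent.Y771.NF.Lam (N := 1) (k := 12) Pool.Agent.W97.TW.deltaForm) :=
    Pool.Agent.Y771.NF.Lam_diff (by norm_num) Pool.Agent.Y771.NF.newf_delta
  have h2 : Xi = fun z => Pool.Agent.Y771.NF.Lam (N := 1) (k := 12) Pool.Agent.W97.TW.deltaForm (6 + Complex.I * z) := funext xi_eq
  rw [h2]
  exact h1.comp ((differentiable_const _).add ((differentiable_const _).mul differentiable_id))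

theorem off_finite (δ T : ℝ) (hδ : 0 ≤ δ) : (Off δ T).Finite := by
  obtain ⟨C, _, h⟩ := Pool.Agent.Results.MP_cd509c_nt.ZeroDensity.result 0 one_pos
  exact (h δ (max T 2) hδ (le_max_right _ _)).1.subset fun z hz => ⟨hz.1, hz.2.1, hz.2.2.1, hz.2.2.2.trans (le_max_left _ _)⟩

/-- the order of a zero is at least one -/
theorem order_pos {z : ℂ} (h : Xi z = 0) : 1 ≤ analyticOrderNatAt Xi z := by
  have han : AnalyticOnNhd ℂ Xi Set.univ := (xi_diff.differentiableOn).analyticOnNhd isOpen_univ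
  obtain ⟨z₀, hz₀⟩ : ∃ z₀, Xi z₀ ≠ 0 := by
    by_contra hcon
    push Not at hcon
    have hfin := off_finite 0 1 le_rfl
    have hinf : (Set.Ioc (0 : ℝ) 1).Infinite := Set.Ioc_infinite one_pos
    apply hinf
    have hinj : Set.InjOn (fun x : ℝ => (x : ℂ)) (Set.Ioc (0 : ℝ) 1) := fun a _ b _ hab => Complex.ofReal_injective hab
    refine Set.Finite.of_finite_image (f := fun x : ℝ => (x : ℂ)) (hfin.subset ?_) hinj
    rintro _ ⟨x, hx, rfl⟩
    exact ⟨hcon _, abs_nonneg _, by simpa using hx.1, by simpa using hx.2⟩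
  have htop0 : analyticOrderAt Xi z₀ ≠ ⊤ := by
    rw [(han z₀ (Set.mem_univ _)).analyticOrderAt_eq_zero.2 hz₀]
    simp
  have htop : analyticOrderAt Xi z ≠ ⊤ :=
    AnalyticOnNhd.analyticOrderAt_ne_top_of_isPreconnected han isPreconnected_univ (Set.mem_univ z₀) (Set.mem_univ z) htop0
  have hne : analyticOrderAt Xi z ≠ 0 := by
    rw [Ne, (han z (Set.mem_univ _)).analyticOrderAt_eq_zero]
    simpa using h
  unfold analyticOrderNatAt
  rw [Nat.one_le_iff_ne_zero]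
  intro h0
  rw [ENat.toNat_eq_zero] at h0
  rcases h0 with h0 | h0
  · exact hne h0
  · exact htop h0

/-- the number of elements of `Off` -/
theorem card_off (δ T : ℝ) (hδ : 0 ≤ δ) :
    (off_finite δ T hδ).toFinset.card ≤ num (Off δ T) := by
  classical
  unfold num
  rw [finsum_mem_eq_finite_toFinset_sum _ (off_finite δ T hδ), Finset.card_eq_sum_ones]
  refine Finset.sum_le_sum fun z hz => ?_
  rw [Set.Finite.mem_toFinset] at hz
  exact order_pos hz.1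

/-- natural numbers near a real number -/
theorem card_near (x Y : ℝ) (hx : 0 < x) (hY : 0 ≤ Y) :
    ((Finset.Icc ⌈x - Y⌉₊ ⌊x + Y⌋₊).card : ℝ) ≤ 2 * Y + 1 := by
  rw [Nat.card_Icc]
  have h1 : ((⌊x + Y⌋₊ : ℕ) : ℝ) ≤ x + Y := Nat.floor_le (by linarith)
  have h2 : x - Y ≤ ((⌈x - Y⌉₊ : ℕ) : ℝ) := Nat.le_ceil _
  rcases le_total ⌈x - Y⌉₊ (⌊x + Y⌋₊ + 1) with h | h
  · rw [Nat.cast_sub h]
    push_cast
    linarith
  · rw [Nat.sub_eq_zero_of_le h]
    push_cast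
    linarith

/-- All zeros `z` of the Ramanujan Xi function with `Re z > 0` and `|Re z - n| ≤ n ^ η` satisfy
`|Im z| < δ`. -/
def Close (δ η : ℝ) (n : ℕ) : Prop :=
  ∀ z : ℂ, Xi z = 0 → 0 < z.re → |z.re - n| ≤ (n : ℝ) ^ η → |z.im| < δ

open Pool.Agent.X283.DA in
theorem sparse (δ η : ℝ) (h0 : 0 ≤ δ) (h1 : δ ≤ 1) (hη : 0 ≤ η) (hη1 : η ≤ 1) :
    Sparse {n : ℕ | ¬ Close δ η n} (1 - δ + η) := by
  classical
  refine sparse_of_nat (by linarith) fun ε hε => ?_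
  obtain ⟨C, hC, h⟩ := Pool.Agent.Results.MP_cd509c_nt.ZeroDensity.result (1 - ε / 2) (by linarith)
  refine ⟨3 * (C * 2 ^ (1 - (1 - ε / 2) * δ) * (2 ^ (ε / 2) / (ε / 2))), fun X hX => ?_⟩
  have hX1 : (1 : ℝ) ≤ X := by exact_mod_cast hX
  have hXp : (0 : ℝ) < X := by linarith
  obtain ⟨hfin, hnum⟩ := h δ (2 * X) h0 (by linarith)
  have hYp : (1 : ℝ) ≤ (X : ℝ) ^ η := Real.one_le_rpow hX1 hη
  -- the covering
  have hsub : {t : ℕ | t ∈ {n : ℕ | ¬ Close δ η n} ∧ t ≤ X} ⊆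
      (((off_finite δ (2 * X) h0).toFinset.biUnion fun z =>
        Finset.Icc ⌈z.re - (X : ℝ) ^ η⌉₊ ⌊z.re + (X : ℝ) ^ η⌋₊ : Finset ℕ) : Set ℕ) := by
    rintro n ⟨hn, hnX⟩
    simp only [Set.mem_setOf_eq, Close] at hn
    push Not at hn
    obtain ⟨z, hz, hre, hcl, him⟩ := hn
    have hnX' : (n : ℝ) ≤ X := by exact_mod_cast hnX
    have hpow : (n : ℝ) ^ η ≤ (X : ℝ) ^ η := Real.rpow_le_rpow (Nat.cast_nonneg _) hnX' hη
    have hpow1 : (X : ℝ) ^ η ≤ X := by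
      calc (X : ℝ) ^ η ≤ (X : ℝ) ^ (1 : ℝ) := Real.rpow_le_rpow_of_exponent_le hX1 hη1
        _ = X := Real.rpow_one _
    rw [abs_le] at hcl
    rw [Finset.mem_coe, Finset.mem_biUnion]
    refine ⟨z, ?_, ?_⟩
    · rw [Set.Finite.mem_toFinset]
      exact ⟨hz, him, hre, by linarith⟩
    · rw [Finset.mem_Icc]
      constructor
      · rw [Nat.ceil_le]
        linarith
      · apply Nat.le_floor
        linarith
  have h2 := Set.ncard_le_ncard hsub (Finset.finite_toSet _)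
  rw [Set.ncard_coe_finset] at h2
  have h3 : (((off_finite δ (2 * X) h0).toFinset.biUnion fun z =>
        Finset.Icc ⌈z.re - (X : ℝ) ^ η⌉₊ ⌊z.re + (X : ℝ) ^ η⌋₊).card : ℝ) ≤
      (num (Off δ (2 * X)) : ℝ) * (3 * (X : ℝ) ^ η) := by
    calc (((off_finite δ (2 * X) h0).toFinset.biUnion fun z =>
        Finset.Icc ⌈z.re - (X : ℝ) ^ η⌉₊ ⌊z.re + (X : ℝ) ^ η⌋₊).card : ℝ)
        ≤ ∑ z ∈ (off_finite δ (2 * X) h0).toFinset,
          ((Finset.Icc ⌈z.re - (X : ℝ) ^ η⌉₊ ⌊z.re + (X : ℝ) ^ η⌋₊).card : ℝ) := by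
          exact_mod_cast Finset.card_biUnion_le
      _ ≤ ∑ _z ∈ (off_finite δ (2 * X) h0).toFinset, 3 * (X : ℝ) ^ η := by
          refine Finset.sum_le_sum fun z hz => ?_
          rw [Set.Finite.mem_toFinset] at hz
          refine (card_near z.re _ hz.2.2.1 (by linarith)).trans ?_
          linarith
      _ = ((off_finite δ (2 * X) h0).toFinset.card : ℝ) * (3 * (X : ℝ) ^ η) := by
          rw [Finset.sum_const, nsmul_eq_mul]
      _ ≤ _ := by
          apply mul_le_mul_of_nonneg_right _ (by positivity)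
          exact_mod_cast card_off δ (2 * X) h0
  refine (Nat.cast_le.2 h2).trans (h3.trans ?_)
  have e1 : ((2 : ℝ) * X) ^ (1 - (1 - ε / 2) * δ) = 2 ^ (1 - (1 - ε / 2) * δ) * (X : ℝ) ^ (1 - (1 - ε / 2) * δ) :=
    Real.mul_rpow (by norm_num) hXp.le
  have e2 : (X : ℝ) ^ (1 - (1 - ε / 2) * δ) ≤ (X : ℝ) ^ (1 - δ + ε / 2) := by
    apply Real.rpow_le_rpow_of_exponent_le hX1
    nlinarith
  have e3 : Real.log (2 * X) ≤ 2 ^ (ε / 2) / (ε / 2) * (X : ℝ) ^ (ε / 2) := by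
    have := Real.log_le_rpow_div (x := 2 * X) (by positivity) (ε := ε / 2) (by positivity)
    rw [Real.mul_rpow (by norm_num) hXp.le] at this
    calc _ ≤ _ := this
      _ = _ := by ring
  have e4 : (num (Off δ (2 * X)) : ℝ) ≤
      C * (2 ^ (1 - (1 - ε / 2) * δ) * (X : ℝ) ^ (1 - δ + ε / 2)) *
        (2 ^ (ε / 2) / (ε / 2) * (X : ℝ) ^ (ε / 2)) := by
    refine hnum.trans ?_
    rw [e1]
    have hlog : 0 ≤ Real.log (2 * (X : ℝ)) := Real.log_nonneg (by linarith)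
    apply mul_le_mul _ e3 hlog (by positivity)
    apply mul_le_mul_of_nonneg_left _ hC.le
    exact mul_le_mul_of_nonneg_left e2 (by positivity)
  calc (num (Off δ (2 * X)) : ℝ) * (3 * (X : ℝ) ^ η)
      ≤ (C * (2 ^ (1 - (1 - ε / 2) * δ) * (X : ℝ) ^ (1 - δ + ε / 2)) *
        (2 ^ (ε / 2) / (ε / 2) * (X : ℝ) ^ (ε / 2))) * (3 * (X : ℝ) ^ η) :=
        mul_le_mul_of_nonneg_right e4 (by positivity)
    _ = 3 * (C * 2 ^ (1 - (1 - ε / 2) * δ) * (2 ^ (ε / 2) / (ε / 2))) *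
        ((X : ℝ) ^ (1 - δ + ε / 2) * (X : ℝ) ^ (ε / 2) * (X : ℝ) ^ η) := by ring
    _ = 3 * (C * 2 ^ (1 - (1 - ε / 2) * δ) * (2 ^ (ε / 2) / (ε / 2))) *
        (X : ℝ) ^ (1 - δ + η + ε) := by
        rw [← Real.rpow_add hXp, ← Real.rpow_add hXp]
        congr 2
        ring

end Pool.Agent.X284.RX
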